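import Mathlib
import Pool.Agent.Helper583.ClMain

set_option autoImplicit false

namespace Pool.Agent.Results.MP_2972c3_al.Criterion

universe u

open FirstOrder Cardinal Pool.Agent.Helper583

/-- Let `A` and `B` be sets of cardinalities `κ` and `μ`.  Their clone lattices are
elementarily equivalent if and only if both cardinals are at most one, or they are equal,
or both are infinite and the two bare sets satisfy the same third order sentences. -/
theorem result (κ μ : Cardinal.{u}) (A B : Type u) (hA : #A = κ) (hB : #B = μ) :
    CloneOn A ≅[Language.order] CloneOn B ↔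
      (κ ≤ 1 ∧ μ ≤ 1) ∨ κ = μ ∨ (ℵ₀ ≤ κ ∧ ℵ₀ ≤ μ ∧ ThirdOrderEquiv A B) := by
  subst hA
  subst hB
  rw [criterion_sets, le_one_iff_subsingleton, le_one_iff_subsingleton, Cardinal.eq,
    ← infinite_iff, ← infinite_iff]

end Pool.Agent.Results.MP_2972c3_al.Criterion
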